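import Pool.Agent.KS6_73.DiffQuot
import Pool.Graph.R_pool_sql_team_ae5b0c61.Results.MP_94ebd3_co.Phi3
import Pool.Graph.R_pool_sql_team_seeded_47a924f7.Results.MP_94ebd3_co.DiffProd

/-!
# MP_94ebd3_co: the full answer to Q1

`φ₁ : (-x + y = z) ∧ (x y = t)` is not Ramsey partition regular, `φ₂ : (-x + y = z) ∧ (y = t x)` is
not Ramsey partition regular, and `φ₃ : (x + y = z) ∧ (y = t x)` is Ramsey partition regular.

The part for `φ₂` is new and is proved for sets `H` of any colours; the other two parts are taken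
from the library.

There is a finite colouring `c` of the positive integers such that for every infinite set `H` of
positive integers (of one colour or not) and every colour `j`, there are `h₁ < h₂` in `H` for which
no `z, t` of colour `j` satisfy `-h₁ + h₂ = z` and `h₂ = t h₁`. This settles, in the negative, the
question for the formula `φ₂`.

The colouring (`72` colours) records: the parity of `n`; whether `2 ^ m(n)` divides `n' - 1`, where
`m(n)` is the least prime not dividing `n` and `n'` is the odd part of `n`; the odd part of `n' - 1`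
modulo `4`; and the part of `n` composed of primes above `m(n)`, modulo `3`.

Idea: the quotients `y / x` force `H` to be a divisibility chain. If every integer divides some
element of `H`, then for `x` fixed and `y` large the part of `n` composed of primes above `m(n)` is
the same for `y / x` and `y`, but for `y - x` it is congruent to the negative of that of `x`
modulo `3`. Otherwise some prime stops dividing the quotients, `m(y / x)` stays bounded while
`y / x` tends to `2`-power times `1` in the `2`-adic sense; so the second colour says that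
`2 ^ m(y - x)` divides `(y - x)' - 1`, and as `m(y - x)` is unbounded, the odd parts `x'` tend
`2`-adically to `-1`. Writing `x' = -1 + 2 ^ k q` one gets `(y - x)' = 1 - 2 ^ k q + ...` and
`(y / x)' = 1 + 2 ^ k q + ...`, which have different third colours.
-/

set_option autoImplicit false

namespace Pool.Agent.Results.MP_94ebd3_co.Classification

/-- A formula `φ x y z t` is *Ramsey partition regular in `(x, y) | z, t`*: for every finite
colouring of the positive integers there are colours `i`, `j` and an infinite set `H` of positive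
integers of colour `i` such that for all `h₁ < h₂` in `H` there are positive integers `z`, `t`, both
of colour `j`, with `φ h₁ h₂ z t`. -/
def RamseyPR (φ : ℕ → ℕ → ℕ → ℕ → Prop) : Prop :=
  ∀ (r : ℕ) (c : ℕ → Fin r), 0 < r → ∃ (i j : Fin r) (H : Set ℕ), H.Infinite ∧
    (∀ h ∈ H, 0 < h ∧ c h = i) ∧
    ∀ h₁ ∈ H, ∀ h₂ ∈ H, h₁ < h₂ → ∃ z t : ℕ, 0 < z ∧ 0 < t ∧ c z = j ∧ c t = j ∧ φ h₁ h₂ z t

/-- The formula `φ₁`. -/
def phi1 (x y z t : ℕ) : Prop := (-(x : ℤ) + y = z) ∧ x * y = t

/-- The formula `φ₂`. -/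
def phi2 (x y z t : ℕ) : Prop := (-(x : ℤ) + y = z) ∧ y = t * x

/-- The formula `φ₃`. -/
def phi3 (x y z t : ℕ) : Prop := x + y = z ∧ y = t * x

theorem result : (¬ RamseyPR phi1 ∧ ¬ RamseyPR phi2 ∧ RamseyPR phi3) ∧
    ∃ (r : ℕ) (c : ℕ → Fin r), ∀ H : Set ℕ, H.Infinite → (∀ h ∈ H, 0 < h) →
      ∀ j : Fin r, ∃ h₁ ∈ H, ∃ h₂ ∈ H, h₁ < h₂ ∧ ¬ ∃ z t : ℕ, c z = j ∧ c t = j ∧ phi2 h₁ h₂ z t := by
  refine ⟨⟨fun h => ?_, fun h => ?_, fun r c _ => ?_⟩, ?_⟩
  · obtain ⟨r, c, hc⟩ := Pool.Agent.Results.MP_94ebd3_co.DiffProd.result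
    have hr : 0 < r := Fin.pos (c 0)
    obtain ⟨i, j, H, hinf, hH, hp⟩ := h r c hr
    obtain ⟨h₁, hh₁, h₂, hh₂, hlt, hno⟩ := hc H hinf (fun h hh => (hH h hh).1) j
    obtain ⟨z, t, -, -, hz, ht, e1, e2⟩ := hp h₁ hh₁ h₂ hh₂ hlt
    exact hno ⟨z, t, hz, ht, by omega, e2⟩
  · classical
    obtain ⟨r, ⟨e⟩⟩ := Finite.exists_equiv_fin (Bool × Bool × Fin 4 × Fin 3)
    have hr : 0 < r := Fin.pos (e (true, true, 0, 0))
    obtain ⟨i, j, H, hinf, hH, hp⟩ := h r (fun n => e (KS6_73.DQ.c0 n)) hr
    refine KS6_73.DQ.main' hinf (fun h hh => (hH h hh).1) (e.symm j) fun x hx y hy hxy => ?_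
    obtain ⟨z, t, -, -, h1, h2, h3, h4⟩ := hp x hx y hy hxy
    refine ⟨t, h4, ?_, ?_⟩
    · have h5 : z = y - x := by omega
      rw [← h5, Equiv.eq_symm_apply]
      exact h1
    · rw [Equiv.eq_symm_apply]
      exact h2
  · obtain ⟨i, H, hinf, hH, hp⟩ := Pool.Agent.Results.MP_94ebd3_co.Phi3.result r c
    exact ⟨i, i, H, hinf, hH, hp⟩
  · classical
    obtain ⟨r, ⟨e⟩⟩ := Finite.exists_equiv_fin (Bool × Bool × Fin 4 × Fin 3)
    refine ⟨r, fun n => e (KS6_73.DQ.c0 n), fun H hinf hpos j => ?_⟩
    by_contra hcon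
    push Not at hcon
    refine KS6_73.DQ.main' hinf hpos (e.symm j) fun x hx y hy hxy => ?_
    obtain ⟨z, t, h1, h2, h3, h4⟩ := hcon x hx y hy hxy
    refine ⟨t, h4, ?_, ?_⟩
    · have h5 : z = y - x := by omega
      rw [← h5, Equiv.eq_symm_apply]
      exact h1
    · rw [Equiv.eq_symm_apply]
      exact h2

end Pool.Agent.Results.MP_94ebd3_co.Classification
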